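import Pool.Agent.Lib.MP_83608f_co.AV.GRW

/-!
# MP_83608f_co, short route (helper32), module S1: the abstract two-ball lemmas

Text: /team-store/MP_83608f_h32_SHORT.md, sections 1 and 3.
-/

set_option autoImplicit false

open Classical Finset

noncomputable section

namespace Pool.Agent.Lib.MP_83608f_co.SH

open Pool.Agent.Lib.MP_83608f_co.CN
open Pool.Agent.Lib.MP_83608f_co.AV

variable {U : Type} {R : U → U → Prop} {m u v : ℕ}

theorem wk_flip (j : ℕ) (x y : U) (h : EM.Wk (⟨fun a b => R b a⟩ : Digraph U) j x y) :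
    EM.Wk (⟨R⟩ : Digraph U) j y x := by
  induction j generalizing x with
  | zero =>
    have : x = y := h
    exact this.symm
  | succ j ih =>
    obtain ⟨z, h1, h2⟩ := h
    exact (ih z h2).snoc h1

/-- the reversed relation has no short closed walks -/
theorem nocl_flip (hcl : NoCl R m) : NoCl (fun x y => R y x) m := fun j h1 h2 x h3 => hcl j h1 h2 x (wk_flip j x x h3)

/-- a set whose out-neighbours are in `B`, `G` or `P` -/
theorem one (hcl : NoCl R m) (hm : 45 ≤ m) (N : U → Finset U) (hN : ∀ x, ∀ y ∈ N x, R x y)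
    (hu : ∀ x, u ≤ (N x).card) (B G P : Finset U) (hB : B.Nonempty)
    (hsub : ∀ x ∈ B, ∀ y ∈ N x, y ∈ B ∨ y ∈ G ∨ y ∈ P) :
    (u : ℝ) ≤ B.card / ((m : ℝ) - 44) + G.card + P.card := by
  obtain ⟨x, hx, hlow⟩ := GRW_.exists_low hcl B hB
  have h1 : N x ⊆ (B.filter fun z => R x z) ∪ (G ∪ P) := by
    intro y hy
    rw [mem_union, mem_union, mem_filter]
    rcases hsub x hx y hy with h | h | h
    · exact Or.inl ⟨h, hN x y hy⟩
    · exact Or.inr (Or.inl h)
    · exact Or.inr (Or.inr h)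
  have h2 : u ≤ (B.filter fun z => R x z).card + (G.card + P.card) :=
    (hu x).trans ((card_le_card h1).trans ((card_union_le _ _).trans (Nat.add_le_add_left (card_union_le _ _) _)))
  have hm' : (0 : ℝ) < (m : ℝ) - 44 := by
    have : (45 : ℝ) ≤ m := by exact_mod_cast hm
    linarith
  have h3 : ((B.filter fun z => R x z).card : ℝ) ≤ B.card / ((m : ℝ) - 44) := by
    rw [le_div_iff₀ hm', mul_comm]
    have h4 : (((m - 44 : ℕ) : ℝ)) = (m : ℝ) - 44 := by
      rw [Nat.cast_sub (by omega)]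
      norm_num
    rw [← h4]
    exact_mod_cast hlow
  have h5 : (u : ℝ) ≤ (B.filter fun z => R x z).card + (G.card + P.card) := by exact_mod_cast h2
  linarith

/-- pigeonhole for an increasing sequence of sets -/
theorem pigeon (B : ℕ → Finset U) (hB : ∀ i, B i ⊆ B (i + 1)) (k l : ℕ) (hkl : k < l) :
    ∃ i, k ≤ i ∧ i < l ∧ ((l : ℝ) - k) * (B (i + 1) \ B i).card ≤ (B l).card := by
  by_contra hcon
  push Not at hcon
  have hkl' : (0 : ℝ) < (l : ℝ) - k := by
    have : (k : ℝ) < l := by exact_mod_cast hkl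
    linarith
  have h1 : ∀ j, k ≤ j → j ≤ l → ((j : ℝ) - k) * ((B l).card : ℝ) ≤ ((l : ℝ) - k) * (((B j).card : ℝ) - (B k).card) := by
    intro j hj
    induction j, hj using Nat.le_induction with
    | base =>
      intro _
      simp
    | succ j hj ih =>
      intro hjl
      have h2 := ih (by omega)
      have h3 := hcon j hj (by omega)
      have h4 : ((B (j + 1)).card : ℝ) = (B j).card + (B (j + 1) \ B j).card := by
        have := card_sdiff_add_card_eq_card (hB j)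
        have h5 : (((B (j + 1) \ B j).card + (B j).card : ℕ) : ℝ) = (B (j + 1)).card := by exact_mod_cast this
        push_cast at h5
        linarith
      push_cast
      rw [h4]
      nlinarith
  have h2 := h1 l hkl.le le_rfl
  have h3 := hcon k le_rfl hkl
  have hBk : (0 : ℝ) ≤ (B k).card := Nat.cast_nonneg _
  have h4 : ((l : ℝ) - k) * (B k).card ≤ 0 := by nlinarith
  have h5 : ((B k).card : ℝ) ≤ 0 := by
    by_contra h
    push Not at h
    have := mul_pos hkl' h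
    linarith
  -- all inequalities are strict: sum them again
  have h6 : ∀ j, k < j → j ≤ l → ((j : ℝ) - k) * ((B l).card : ℝ) < ((l : ℝ) - k) * (((B j).card : ℝ) - (B k).card) := by
    intro j hj hjl
    obtain ⟨j, rfl⟩ : ∃ j', j = j' + 1 := ⟨j - 1, by omega⟩
    have h2 := h1 j (by omega) (by omega)
    have h3 := hcon j (by omega) (by omega)
    have h4 : ((B (j + 1)).card : ℝ) = (B j).card + (B (j + 1) \ B j).card := by
      have := card_sdiff_add_card_eq_card (hB j)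
      have h5 : (((B (j + 1) \ B j).card + (B j).card : ℕ) : ℝ) = (B (j + 1)).card := by exact_mod_cast this
      push_cast at h5
      linarith
    push_cast
    rw [h4]
    nlinarith
  have h7 := h6 l hkl le_rfl
  nlinarith

/-- **the count**: no arcs from `B (h - 1)` to `Y` -/
theorem count (hcl : NoCl R m) (hm : 45 ≤ m) (N : U → Finset U) (hN : ∀ x, ∀ y ∈ N x, R x y)
    (hu : ∀ x, u ≤ (N x).card) (B : ℕ → Finset U) (hB : ∀ i, B i ⊆ B (i + 1)) (hB0 : (B 0).Nonempty) (P Y : Finset U)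
    (k : ℕ) (hk : 1 ≤ k) (ha : ∀ i < k, ∀ x ∈ B i, ∀ y ∈ N x, y ∈ B (i + 1) ∨ y ∈ P)
    (hc : ∀ i < k, ∀ x ∈ B i, ∀ y ∈ N x, y ∉ Y) :
    (u : ℝ) + (Y ∩ P).card ≤ P.card + (B k).card / ((m : ℝ) - 44) + (B k).card / k := by
  have hmono : ∀ {i j : ℕ}, i ≤ j → B i ⊆ B j := by
    intro i j hij
    induction j, hij using Nat.le_induction with
    | base => exact Subset.refl _
    | succ j _ ih => exact ih.trans (hB j)
  obtain ⟨i, -, hi, hg⟩ := pigeon B hB 0 k (by omega)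
  have hk' : (0 : ℝ) < k := by exact_mod_cast hk
  have h1 := one hcl hm N hN hu (B i) (B (i + 1) \ B i) (P \ Y) (hB0.mono (hmono (Nat.zero_le i))) (by
    intro x hx y hy
    rcases ha i hi x hx y hy with h | h
    · by_cases h2 : y ∈ B i
      · exact Or.inl h2
      · exact Or.inr (Or.inl (mem_sdiff.2 ⟨h, h2⟩))
    · exact Or.inr (Or.inr (mem_sdiff.2 ⟨h, hc i hi x hx y hy⟩)))
  have hm' : (0 : ℝ) < (m : ℝ) - 44 := by
    have : (45 : ℝ) ≤ m := by exact_mod_cast hm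
    linarith
  have h2 : ((B i).card : ℝ) / ((m : ℝ) - 44) ≤ (B k).card / ((m : ℝ) - 44) := by
    apply div_le_div_of_nonneg_right _ hm'.le
    exact_mod_cast card_le_card (hmono hi.le)
  have h3 : (((B (i + 1) \ B i).card : ℕ) : ℝ) ≤ (B k).card / k := by
    rw [le_div_iff₀ hk', mul_comm]
    simpa using hg
  have h4 : ((P \ Y).card : ℝ) + (Y ∩ P).card = P.card := by
    have h5 := card_sdiff_add_card_inter P Y
    rw [inter_comm] at h5
    exact_mod_cast h5
  linarith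

/-- **the deep part**: `Y k ⊆ P` unless `v` is small -/
theorem deep (hcl : NoCl R m) (hm : 45 ≤ m) (M : U → Finset U) (hM : ∀ y, ∀ x ∈ M y, R x y)
    (hv : ∀ y, v ≤ (M y).card) (Y : ℕ → Finset U) (hY : ∀ i, Y i ⊆ Y (i + 1)) (P : Finset U)
    (k h : ℕ) (hk : k < h) (he : ∀ j < h, ∀ y ∈ Y j, y ∉ P → ∀ x ∈ M y, x ∈ Y (j + 1)) :
    Y k ⊆ P ∨ (v : ℝ) ≤ (Y h).card / ((m : ℝ) - 44) + (Y h).card / ((h : ℝ) - k) + (Y h ∩ P).card := by
  have hmono : ∀ {i j : ℕ}, i ≤ j → Y i ⊆ Y j := by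
    intro i j hij
    induction j, hij using Nat.le_induction with
    | base => exact Subset.refl _
    | succ j _ ih => exact ih.trans (hY j)
  by_cases hne : Y k ⊆ P
  · exact Or.inl hne
  right
  obtain ⟨j, hj1, hj2, hg⟩ := pigeon Y hY k h hk
  have hm' : (0 : ℝ) < (m : ℝ) - 44 := by
    have : (45 : ℝ) ≤ m := by exact_mod_cast hm
    linarith
  have hk' : (0 : ℝ) < (h : ℝ) - k := by
    have : (k : ℝ) < h := by exact_mod_cast hk
    linarith
  obtain ⟨y0, hy0, hy0P⟩ := not_subset.1 hne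
  have h1 := one (nocl_flip hcl) hm M (fun y x hx => hM y x hx) hv (Y j \ P) (Y (j + 1) \ Y j) (Y j ∩ P)
    ⟨y0, mem_sdiff.2 ⟨hmono hj1 hy0, hy0P⟩⟩ (by
      intro y hy x hx
      rw [mem_sdiff] at hy
      have h2 := he j hj2 y hy.1 hy.2 x hx
      by_cases h3 : x ∈ Y j
      · by_cases h4 : x ∈ P
        · exact Or.inr (Or.inr (mem_inter.2 ⟨h3, h4⟩))
        · exact Or.inl (mem_sdiff.2 ⟨h3, h4⟩)
      · exact Or.inr (Or.inl (mem_sdiff.2 ⟨h2, h3⟩)))
  have h2 : ((Y j \ P).card : ℝ) / ((m : ℝ) - 44) ≤ (Y h).card / ((m : ℝ) - 44) := by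
    apply div_le_div_of_nonneg_right _ hm'.le
    exact_mod_cast card_le_card (sdiff_subset.trans (hmono hj2.le))
  have h3 : (((Y (j + 1) \ Y j).card : ℕ) : ℝ) ≤ (Y h).card / ((h : ℝ) - k) := by
    rw [le_div_iff₀ hk', mul_comm]
    exact hg
  have h4 : ((Y j ∩ P).card : ℝ) ≤ (Y h ∩ P).card := by
    exact_mod_cast card_le_card (inter_subset_inter_right (hmono hj2.le))
  linarith

/-- the data of the two balls at a front -/
structure Two (N M : U → Finset U) (B Y : ℕ → Finset U) (P P' : Finset U) (h : ℕ) : Prop where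
  monoB : ∀ i, B i ⊆ B (i + 1)
  monoY : ∀ i, Y i ⊆ Y (i + 1)
  a : ∀ i < h, ∀ x ∈ B i, ∀ y ∈ N x, y ∈ B (i + 1) ∨ y ∈ P
  a' : ∀ j < h, ∀ y ∈ Y j, ∀ x ∈ M y, x ∈ Y (j + 1) ∨ x ∈ P'
  e : ∀ j < h, ∀ y ∈ Y j, y ∉ P → ∀ x ∈ M y, x ∈ Y (j + 1)
  e' : ∀ i < h, ∀ x ∈ B i, x ∉ P' → ∀ y ∈ N x, y ∈ B (i + 1)
  c : ∀ i ≤ h, ∀ x ∈ B i, ∀ y ∈ N x, ∀ j ≤ h, y ∉ Y j

/-- **Lemma L**, abstract form -/
theorem lemL (hcl : NoCl R m) (hm : 45 ≤ m) (N M : U → Finset U) (hN : ∀ x, ∀ y ∈ N x, R x y)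
    (hM : ∀ y, ∀ x ∈ M y, R x y) (hNM : ∀ x y, y ∈ N x ↔ x ∈ M y)
    (hu : ∀ x, u ≤ (N x).card) (hv : ∀ y, v ≤ (M y).card) (B Y : ℕ → Finset U) (P P' : Finset U) (k : ℕ) (hk : 3 ≤ k)
    (T : Two N M B Y P P' (2 * k)) (hB0 : (B 0).Nonempty) (hY0 : (Y 0).Nonempty) (hm2 : 47 ≤ m) (s : ℝ)
    (hs1 : ((B (2 * k)).card : ℝ) ≤ s * ((m : ℝ) - 44)) (hs2 : ((B (2 * k)).card : ℝ) ≤ s * k)
    (hs3 : ((Y (2 * k)).card : ℝ) ≤ s * ((m : ℝ) - 44)) (hs4 : ((Y (2 * k)).card : ℝ) ≤ s * k)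
    (hsu : 6 * s < u) (hsv : 6 * s < v) : u + v ≤ P.card + P'.card := by
  by_contra hcon
  push Not at hcon
  have hcon' : (P.card : ℝ) + P'.card < u + v := by exact_mod_cast hcon
  have hm' : (0 : ℝ) < (m : ℝ) - 44 := by
    have : (45 : ℝ) ≤ m := by exact_mod_cast hm
    linarith
  have hk' : (0 : ℝ) < (k : ℝ) := by
    have : (3 : ℝ) ≤ k := by exact_mod_cast hk
    linarith
  have hdB : ((B (2 * k)).card : ℝ) / ((m : ℝ) - 44) ≤ s := (div_le_iff₀ hm').2 hs1
  have hdB' : ((B (2 * k)).card : ℝ) / k ≤ s := (div_le_iff₀ hk').2 hs2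
  have hdY : ((Y (2 * k)).card : ℝ) / ((m : ℝ) - 44) ≤ s := (div_le_iff₀ hm').2 hs3
  have hdY' : ((Y (2 * k)).card : ℝ) / k ≤ s := (div_le_iff₀ hk').2 hs4
  have h2k : ∀ t : ℝ, 0 ≤ t → t / ((2 * k : ℕ) : ℝ) ≤ t / k := by
    intro t ht
    push_cast
    apply div_le_div_of_nonneg_left ht hk'
    linarith
  have hcY : ∀ i < 2 * k, ∀ x ∈ B i, ∀ y ∈ N x, y ∉ Y (2 * k) := fun i hi x hx y hy => T.c i hi.le x hx y hy _ le_rfl
  have hcB : ∀ i < 2 * k, ∀ y ∈ Y i, ∀ x ∈ M y, x ∉ B (2 * k) := fun i hi y hy x hx hxB =>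
    T.c (2 * k) le_rfl x hxB y ((hNM x y).2 hx) i hi.le hy
  -- counts
  have c1 := count hcl hm N hN hu B T.monoB hB0 P (Y (2 * k)) (2 * k) (by omega) T.a hcY
  have c2 := count (nocl_flip hcl) hm M (fun y x hx => hM y x hx) hv Y T.monoY hY0 P' (B (2 * k)) (2 * k) (by omega)
    T.a' hcB
  have e1 := h2k _ (Nat.cast_nonneg (B (2 * k)).card)
  have e2 := h2k _ (Nat.cast_nonneg (Y (2 * k)).card)
  have n1 : (0 : ℝ) ≤ (Y (2 * k) ∩ P).card := Nat.cast_nonneg _
  have n2 : (0 : ℝ) ≤ (B (2 * k) ∩ P').card := Nat.cast_nonneg _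
  have hYP : ((Y (2 * k) ∩ P).card : ℝ) ≤ 4 * s := by linarith
  have hBP : ((B (2 * k) ∩ P').card : ℝ) ≤ 4 * s := by linarith
  have hkk : ((2 * k : ℕ) : ℝ) - k = k := by
    push_cast
    ring
  have dY : Y k ⊆ P := by
    rcases deep hcl hm M hM hv Y T.monoY P k (2 * k) (by omega) T.e with h | h
    · exact h
    · exfalso
      rw [hkk] at h
      linarith
  have dB : B k ⊆ P' := by
    rcases deep (R := fun x y => R y x) (nocl_flip hcl) hm N (fun x y hy => hN x y hy) hu B T.monoB P' k (2 * k)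
      (by omega) T.e' with h | h
    · exact h
    · exfalso
      rw [hkk] at h
      linarith
  have monoY : Y k ⊆ Y (2 * k) := by
    have : ∀ i, Y k ⊆ Y (k + i) := by
      intro i
      induction i with
      | zero => exact Subset.refl _
      | succ i ih => exact ih.trans (T.monoY (k + i))
    have h := this k
    rwa [show k + k = 2 * k by ring] at h
  have monoB : B k ⊆ B (2 * k) := by
    have : ∀ i, B k ⊆ B (k + i) := by
      intro i
      induction i with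
      | zero => exact Subset.refl _
      | succ i ih => exact ih.trans (T.monoB (k + i))
    have h := this k
    rwa [show k + k = 2 * k by ring] at h
  have c3 := count hcl hm N hN hu B T.monoB hB0 P (Y (2 * k)) k (by omega) (fun i hi => T.a i (by omega))
    (fun i hi => hcY i (by omega))
  have c4 := count (nocl_flip hcl) hm M (fun y x hx => hM y x hx) hv Y T.monoY hY0 P' (B (2 * k)) k (by omega)
    (fun i hi => T.a' i (by omega)) (fun i hi => hcB i (by omega))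
  have i1 : ((Y k).card : ℝ) ≤ (Y (2 * k) ∩ P).card := by
    exact_mod_cast card_le_card (subset_inter monoY dY)
  have i2 : ((B k).card : ℝ) ≤ (B (2 * k) ∩ P').card := by
    exact_mod_cast card_le_card (subset_inter monoB dB)
  have hBk : (1 : ℝ) ≤ (B k).card := by
    have h0 : B 0 ⊆ B k := by
      have : ∀ i, B 0 ⊆ B i := by
        intro i
        induction i with
        | zero => exact Subset.refl _
        | succ i ih => exact ih.trans (T.monoB i)
      exact this k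
    exact_mod_cast card_pos.2 (hB0.mono h0)
  have f1 : ∀ t : ℝ, 0 ≤ t → t / ((m : ℝ) - 44) ≤ t / 3 := by
    intro t ht
    apply div_le_div_of_nonneg_left ht (by norm_num)
    have : (47 : ℝ) ≤ m := by exact_mod_cast hm2
    linarith
  have f2 : ∀ t : ℝ, 0 ≤ t → t / (k : ℝ) ≤ t / 3 := by
    intro t ht
    apply div_le_div_of_nonneg_left ht (by norm_num)
    exact_mod_cast hk
  have g1 := f1 _ (Nat.cast_nonneg (B k).card)
  have g2 := f2 _ (Nat.cast_nonneg (B k).card)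
  have g3 := f1 _ (Nat.cast_nonneg (Y k).card)
  have g4 := f2 _ (Nat.cast_nonneg (Y k).card)
  have hYk : (0 : ℝ) ≤ (Y k).card := Nat.cast_nonneg _
  linarith

/-- **Lemma K**, abstract form -/
theorem lemK (hcl : NoCl R m) (hm : 45 ≤ m) (N M : U → Finset U) (hN : ∀ x, ∀ y ∈ N x, R x y)
    (hM : ∀ y, ∀ x ∈ M y, R x y)
    (hu : ∀ x, u ≤ (N x).card) (hv : ∀ y, v ≤ (M y).card) (B Y : ℕ → Finset U) (P P' : Finset U) (k : ℕ) (hk : 1 ≤ k)
    (T : Two N M B Y P P' (2 * k)) (hB0 : (B 0).Nonempty) (s : ℝ)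
    (hs1 : ((B (2 * k)).card : ℝ) ≤ s * ((m : ℝ) - 44)) (hs2 : ((B (2 * k)).card : ℝ) ≤ s * k)
    (hs3 : ((Y (2 * k)).card : ℝ) ≤ s * ((m : ℝ) - 44)) (hs4 : ((Y (2 * k)).card : ℝ) ≤ s * k)
    (hsv : 8 * s < v) (hP : (P.card : ℝ) ≤ u + v / 2) :
    ((Y 0).card : ℝ) ≤ P.card - u + (B (2 * k)).card / ((m : ℝ) - 44) + (B (2 * k)).card / ((2 * k : ℕ) : ℝ) := by
  have hm' : (0 : ℝ) < (m : ℝ) - 44 := by
    have : (45 : ℝ) ≤ m := by exact_mod_cast hm
    linarith
  have hk' : (0 : ℝ) < (k : ℝ) := by exact_mod_cast hk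
  have hdB : ((B (2 * k)).card : ℝ) / ((m : ℝ) - 44) ≤ s := (div_le_iff₀ hm').2 hs1
  have hdB' : ((B (2 * k)).card : ℝ) / k ≤ s := (div_le_iff₀ hk').2 hs2
  have hdY : ((Y (2 * k)).card : ℝ) / ((m : ℝ) - 44) ≤ s := (div_le_iff₀ hm').2 hs3
  have hdY' : ((Y (2 * k)).card : ℝ) / k ≤ s := (div_le_iff₀ hk').2 hs4
  have h2k : ∀ t : ℝ, 0 ≤ t → t / ((2 * k : ℕ) : ℝ) ≤ t / k := by
    intro t ht
    push_cast
    apply div_le_div_of_nonneg_left ht hk'
    linarith
  have hcY : ∀ i < 2 * k, ∀ x ∈ B i, ∀ y ∈ N x, y ∉ Y (2 * k) := fun i hi x hx y hy => T.c i hi.le x hx y hy _ le_rfl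
  have c1 := count hcl hm N hN hu B T.monoB hB0 P (Y (2 * k)) (2 * k) (by omega) T.a hcY
  have e1 := h2k _ (Nat.cast_nonneg (B (2 * k)).card)
  have hkk : ((2 * k : ℕ) : ℝ) - k = k := by
    push_cast
    ring
  have hmono : ∀ i, Y 0 ⊆ Y i := by
    intro i
    induction i with
    | zero => exact Subset.refl _
    | succ i ih => exact ih.trans (T.monoY i)
  have hYk : Y k ⊆ P := by
    rcases deep hcl hm M hM hv Y T.monoY P k (2 * k) (by omega) T.e with h | h
    · exact h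
    · exfalso
      rw [hkk] at h
      linarith
  have i1 : ((Y 0).card : ℝ) ≤ (Y (2 * k) ∩ P).card := by
    exact_mod_cast card_le_card (subset_inter (hmono _) ((hmono k).trans hYk))
  linarith

end Pool.Agent.Lib.MP_83608f_co.SH
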